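import Pool.Agent.BEJ.Stmts
import Pool.Agent.Helper27_BED.DSC

/-!
# Squad BEJ (MP_be01ff_an), row DSA: every disc of the plane, every even `α`
-/

set_option autoImplicit false

namespace Pool.Agent.BEJ.H6

open Set Filter Topology MeasureTheory
open scoped InnerProductSpace ENNReal
open Pool.Agent.BE01 Pool.Agent.BED
open Pool.Agent.BEO (BB)
open Pool.Agent.BED.H27 (dsc_dom dsc_mem dsc_rad dsc_int)

/-- row DSA -/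
theorem dsa (fn3 : Fn3Stmt) (spd : SpdStmt) (phr : PhrStmt) (nrx : NrxStmt) (jab : JabStmt)
    (orx : OrxStmt) : DsaStmt := by
  intro R a p hR ha hp
  obtain ⟨C1, hC1, hO⟩ := orx p hp
  obtain ⟨x0, -, hx1, hx3, hnr⟩ := nrx (1 + 2 * p + 2 * p * C1) 0
  have hx0 : 0 < x0 := by linarith
  have hx4 : deriv j0 x0 ≠ 0 := jab.2 x0 hx0 hx3
  obtain ⟨φ, hφ, hφ0, hφr, hφe⟩ := phr R x0 hR hx0 hx3
  obtain ⟨hb, hcond⟩ := hO R x0 φ hR hx1 hφ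
  have hDom := dsc_dom R hR
  obtain ⟨X, i1, i2, i3, A, W, Z, -, -, -, -, -, -, -, -, hS⟩ :=
    Pool.Agent.Helper70BE01All.wvc2 2 (BB 2 R) (Or.inl rfl) hDom
  have hsimple : ∀ u, Inv (BB 2 R) Set.univ u → IsEig (BB 2 R) ((x0 / R) ^ 2) u →
      ∃ c : ℝ, u = c • φ := by
    intro u hu hue
    refine ⟨⟪φ, u⟫_ℝ / ⟪φ, φ⟫_ℝ, ?_⟩
    have hpp : ⟪φ, φ⟫_ℝ ≠ 0 := inner_self_ne_zero.2 hφ0
    have hrad := dsc_rad R u φ (⟪φ, u⟫_ℝ / ⟪φ, φ⟫_ℝ) hu hφr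
    have heig : IsEig (BB 2 R) ((x0 / R) ^ 2) (u - (⟪φ, u⟫_ℝ / ⟪φ, φ⟫_ℝ) • φ) := by
      rw [hS] at hue hφe ⊢
      rw [map_sub, map_smul, smul_sub, smul_comm, ← hφe, ← hue]
    have hint : ∫ y, (u - (⟪φ, u⟫_ℝ / ⟪φ, φ⟫_ℝ) • φ : Lp ℝ 2 (mu (BB 2 R))) y * φ y
        ∂(mu (BB 2 R)) = 0 := by
      rw [dsc_int, inner_sub_right, inner_smul_right, div_mul_cancel₀ _ hpp, sub_self]
    have h0 := (spd R x0 _ hR hx0 hrad heig).2 hx4 φ hφ hint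
    exact sub_eq_zero.1 h0
  have hp0 : (0 : ℝ) ≤ p := Nat.cast_nonneg p
  have hN1 : C1 * x0 ≤ (⌈C1 * x0⌉₊ : ℝ) := Nat.le_ceil _
  have hN2 : (⌈C1 * x0⌉₊ : ℝ) < C1 * x0 + 1 := Nat.ceil_lt_add_one (by positivity)
  have hN3 : 1 + 2 * (p : ℝ) * (⌈C1 * x0⌉₊ : ℝ) ≤ (1 + 2 * p + 2 * p * C1) * x0 := by
    have h1 : 2 * (p : ℝ) * (⌈C1 * x0⌉₊ : ℝ) ≤ 2 * p * (C1 * x0 + 1) :=
      mul_le_mul_of_nonneg_left hN2.le (by positivity)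
    have h2 : (1 + 2 * (p : ℝ)) * 1 ≤ (1 + 2 * p) * x0 :=
      mul_le_mul_of_nonneg_left hx1 (by positivity)
    nlinarith
  have hnon : ∀ n : ℕ, Odd n → 3 ≤ n → n ≤ 1 + 2 * p * ⌈C1 * x0⌉₊ →
      ∀ u, Inv (BB 2 R) Set.univ u → IsEig (BB 2 R) ((n : ℝ) ^ 2 * (x0 / R) ^ 2) u → u = 0 := by
    intro n hn h3 hle u hu hue
    have hn0 : (0 : ℝ) < n := by
      have : 0 < n := by omega
      exact_mod_cast this
    have hle' : (n : ℝ) ≤ (1 + 2 * p + 2 * p * C1) * x0 := by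
      have h5 : (n : ℝ) ≤ ((1 + 2 * p * ⌈C1 * x0⌉₊ : ℕ) : ℝ) := by exact_mod_cast hle
      push_cast at h5
      exact h5.trans hN3
    refine (spd R (n * x0) u hR (mul_pos hn0 hx0) hu ?_).1 (hnr n hn h3 hle')
    have h6 : (n * x0 / R) ^ 2 = (n : ℝ) ^ 2 * (x0 / R) ^ 2 := by ring
    rw [h6]
    exact hue
  exact fn3 2 (BB 2 R) Set.univ p ⌈C1 * x0⌉₊ a ((x0 / R) ^ 2) 1 φ (Or.inl rfl) hDom
    (fun g _ x => dsc_mem R g x) hp ha hφ0 hφr hφe hsimple hb (hcond _ hN1) hnon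

end Pool.Agent.BEJ.H6
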